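import Mathlib

/-!
# Majority domination on complete multipartite graphs: definitions (MP_1ffe94_lc)
-/

set_option autoImplicit false

namespace Pool.Agent.R547.MJ

open Finset

/-- The vertices of the complete multipartite graph with parts of sizes `ns`. -/
abbrev Vert (ns : List ℕ) : Type := Σ i : Fin ns.length, Fin (ns.get i)

/-- The complete multipartite graph `K_{n_1, ..., n_m}` for `ns = [n_1, ..., n_m]`: two vertices
are adjacent exactly when they lie in different parts. -/
def Kgraph (ns : List ℕ) : SimpleGraph (Vert ns) where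
  Adj u v := u.1 ≠ v.1
  symm := ⟨fun _ _ h => h.symm⟩
  loopless := ⟨fun _ h => h rfl⟩

open Classical in
/-- `f(N[v])`, the sum of `f` over the closed neighbourhood of `v`. -/
noncomputable def closedSum {V : Type} [Fintype V] (G : SimpleGraph V) (f : V → ℤ) (v : V) : ℤ :=
  ∑ u ∈ univ.filter (fun u => u = v ∨ G.Adj v u), f u

/-- `f` is a majority dominating function of `G`: its values are `-1` and `1`, and at least half of
the vertices `v` satisfy `f(N[v]) ≥ 1`. -/
def IsMDF {V : Type} [Fintype V] (G : SimpleGraph V) (f : V → ℤ) : Prop :=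
  (∀ v, f v = -1 ∨ f v = 1) ∧
    (Fintype.card V : ℝ) / 2 ≤ ({v : V | 1 ≤ closedSum G f v}.ncard : ℝ)

/-- The decision problem MAJ-CMP. An instance is a nonempty list of positive integers (the sizes
of the parts) together with a positive integer `k`; the question is whether the complete
multipartite graph has a majority dominating function of weight at most `k`. -/
def MajCMP (x : List ℕ × ℕ) : Prop :=
  x.1 ≠ [] ∧ (∀ n ∈ x.1, 0 < n) ∧ 0 < x.2 ∧
    ∃ f : Vert x.1 → ℤ, IsMDF (Kgraph x.1) f ∧ ∑ v, f v ≤ (x.2 : ℤ)

end Pool.Agent.R547.MJ
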