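import Pool.Agent.R547.MJ.Suf

/-!
# The combinatorial criterion, sufficiency if all parts have at most three vertices
-/

set_option autoImplicit false

namespace Pool.Agent.R547.MJ

open Finset

section

variable {ι : Type} [Fintype ι] [DecidableEq ι]

theorem small_arith (a k2 k3 : ℕ) (hpar : a % 2 = k3 % 2) (hle : a ≤ 2 * k2 + 3 * k3)
    (h0 : k2 = 0 → 3 ∣ a) :
    ∃ y p q : ℕ, y ≤ k3 ∧ p + q ≤ k2 ∧ 2 * p + 3 * y = a + 2 * q := by
  rcases Nat.eq_zero_or_pos k2 with hk | hk
  · obtain ⟨c, hc⟩ := h0 hk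
    exact ⟨c, 0, 0, by omega, by omega, by omega⟩
  · by_cases h1 : 3 * k3 ≤ a
    · exact ⟨k3, (a - 3 * k3) / 2, 0, le_rfl, by omega, by omega⟩
    · by_cases h2 : 3 * k3 ≤ a + 2
      · exact ⟨k3, 0, 1, le_rfl, by omega, by omega⟩
      · have h3 : a % 3 = 0 ∨ a % 3 = 1 ∨ a % 3 = 2 := by omega
        rcases h3 with h3 | h3 | h3
        · exact ⟨a / 3, 0, 0, by omega, by omega, by omega⟩
        · exact ⟨a / 3 + 1, 0, 1, by omega, by omega, by omega⟩
        · exact ⟨a / 3, 1, 0, by omega, by omega, by omega⟩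

theorem cc_small (n : ι → ℕ) (hpos : ∀ i, 0 < n i) (hev : Even (∑ i, n i)) (hc : Crit n)
    (h3 : ∀ i, n i ≤ 3) : CC n := by
  set T2 : Finset ι := univ.filter (fun i => n i = 2) with hT2
  set T3 : Finset ι := univ.filter (fun i => n i = 3) with hT3
  have hcount : ∀ (T : Finset ι), (#T : ℤ) = ∑ i, if i ∈ T then (1 : ℤ) else 0 := by
    intro T
    rw [sum_ite_mem, univ_inter, sum_const, nsmul_eq_mul, mul_one]
  have hN : ((∑ i, n i : ℕ) : ℤ) = ones n + 2 * #T2 + 3 * #T3 := by
    rw [ones_eq, hcount T2, hcount T3, mul_sum, mul_sum, ← sum_add_distrib, ← sum_add_distrib]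
    push_cast
    refine sum_congr rfl fun i _ => ?_
    have hp := hpos i
    have hq := h3 i
    simp only [hT2, hT3, mem_filter, mem_univ, true_and]
    have : n i = 1 ∨ n i = 2 ∨ n i = 3 := by omega
    rcases this with h | h | h <;> rw [h] <;> norm_num
  have hhalf := hc.half
  have h0 : #T2 = 0 → 3 ∣ ones n := by
    intro h
    apply hc.e1
    intro i
    have hp := hpos i
    have hq := h3 i
    by_contra hcon
    push Not at hcon
    have : i ∈ T2 := by
      simp only [hT2, mem_filter, mem_univ, true_and]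
      omega
    rw [card_eq_zero.1 h] at this
    simp at this
  obtain ⟨N2, hN2⟩ := hev
  obtain ⟨y, p, q, hy, hpq, he⟩ := small_arith (ones n) (#T2) (#T3) (by omega) (by omega) h0
  obtain ⟨A3, hA3, hA3c⟩ := exists_subset_card_eq (s := T3) (n := (#T3 + y) / 2) (by omega)
  obtain ⟨A2, hA2, hA2c⟩ := exists_subset_card_eq (s := T2) (n := p) (by omega)
  obtain ⟨B2, hB2, hB2c⟩ := exists_subset_card_eq (s := T2 \ A2) (n := q) (by
    rw [card_sdiff_of_subset hA2]; omega)
  have hA3' : ∀ i ∈ A3, n i = 3 := fun i hi => (mem_filter.1 (hA3 hi)).2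
  have hA2' : ∀ i ∈ A2, n i = 2 := fun i hi => (mem_filter.1 (hA2 hi)).2
  have hB2' : ∀ i ∈ B2, n i = 2 ∧ i ∉ A2 := fun i hi =>
    ⟨(mem_filter.1 (mem_sdiff.1 (hB2 hi)).1).2, (mem_sdiff.1 (hB2 hi)).2⟩
  set τ : ι → Ty := fun i => if i ∈ A3 ∨ i ∈ A2 then Ty.I else if n i = 2 ∧ i ∉ B2 then Ty.J
    else Ty.R with hτ
  have key : ∀ i, pc (τ i) (n i) = 6 * (if i ∈ A3 then (1 : ℤ) else 0) +
      2 * (if i ∈ A2 then (1 : ℤ) else 0) - 2 * (if i ∈ B2 then (1 : ℤ) else 0) -
      3 * (if i ∈ T3 then (1 : ℤ) else 0) - (if n i = 1 then (1 : ℤ) else 0) ∧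
      sc (τ i) (n i) = - pc (τ i) (n i) := by
    intro i
    have hp := hpos i
    have hq := h3 i
    have hm3 : i ∈ T3 ↔ n i = 3 := by simp [hT3]
    rw [if_congr hm3 rfl rfl]
    by_cases a3 : i ∈ A3
    · have e := hA3' i a3
      have b1 : i ∉ A2 := fun h => by have := hA2' i h; omega
      have b2 : i ∉ B2 := fun h => by have := (hB2' i h).1; omega
      simp only [hτ, a3, b1, b2, true_or, if_true, if_false, pc, sc, e]
      norm_num
    · by_cases a2 : i ∈ A2
      · have e := hA2' i a2
        have b2 : i ∉ B2 := fun h => (hB2' i h).2 a2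
        simp only [hτ, a3, a2, b2, or_true, if_true, if_false, pc, sc, e]
        norm_num
      · by_cases b2 : i ∈ B2
        · have e := (hB2' i b2).1
          simp only [hτ, a3, a2, b2, or_self, if_true, if_false, pc, sc, e, not_true, and_false]
          norm_num
        · have : n i = 1 ∨ n i = 2 ∨ n i = 3 := by omega
          rcases this with e | e | e
          · simp only [hτ, a3, a2, b2, or_self, if_true, if_false, pc, sc, e, not_false_iff,
              and_true]
            norm_num [pc, sc]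
          · simp only [hτ, a3, a2, b2, or_self, if_true, if_false, pc, sc, e, not_false_iff,
              and_true]
            norm_num [pc, sc]
          · simp only [hτ, a3, a2, b2, or_self, if_true, if_false, pc, sc, e, not_false_iff,
              and_true]
            norm_num [pc, sc]
  have hP : ∑ i, pc (τ i) (n i) = 0 := by
    rw [sum_congr rfl fun i _ => (key i).1]
    rw [sum_sub_distrib, sum_sub_distrib, sum_sub_distrib, sum_add_distrib, ← mul_sum, ← mul_sum,
      ← mul_sum, ← mul_sum, ← hcount, ← hcount, ← hcount, ← hcount, ← ones_eq]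
    omega
  refine ⟨τ, ?_, by rw [hP], ?_⟩
  · intro i hi
    by_cases a3 : i ∈ A3
    · have := hA3' i a3; omega
    · by_cases a2 : i ∈ A2
      · have := hA2' i a2; omega
      · simp only [hτ, a3, a2, or_self, if_false] at hi
        split_ifs at hi
  · rw [sum_congr rfl fun i _ => (key i).2, sum_neg_distrib, hP, neg_zero]

/-- the combinatorial condition is equivalent to the arithmetic criterion -/
theorem cc_iff_crit [Nonempty ι] (n : ι → ℕ) (hpos : ∀ i, 0 < n i) (hev : Even (∑ i, n i)) :
    CC n ↔ Crit n := by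
  constructor
  · exact crit_of_cc n hpos hev
  · intro hc
    obtain ⟨i0, -, hmax⟩ := exists_max_image univ n univ_nonempty
    by_cases h4 : 4 ≤ n i0
    · exact cc_big n hpos hev hc i0 (fun i => hmax i (mem_univ i)) h4
    · exact cc_small n hpos hev hc fun i => by have := hmax i (mem_univ i); omega

end

end Pool.Agent.R547.MJ
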