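import Pool.Agent.R547.MJ.Num
import Pool.Agent.R547.MJ.Small

/-!
# Feasibility in terms of the criterion
-/

set_option autoImplicit false

namespace Pool.Agent.R547.MJ

open Finset

section

variable {ι : Type} [Fintype ι] [DecidableEq ι]

theorem par_sum (n : ι → ℕ) (p : ι → ℕ) :
    (2 : ℤ) ∣ (∑ i, (2 * (p i : ℤ) - n i)) - ((∑ i, n i : ℕ) : ℤ) := by
  push_cast
  rw [← sum_sub_distrib]
  exact dvd_sum fun i _ => ⟨(p i : ℤ) - n i, by ring⟩

theorem cc_of_feas (n : ι → ℕ) (hpos : ∀ i, 0 < n i) (hev : Even (∑ i, n i)) (K : ℤ)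
    (hK : K ≤ 1) (h : Feas n K) : CC n := by
  obtain ⟨p, hp, hW, hN⟩ := h
  have hpar := par_sum n p
  set W : ℤ := ∑ i, (2 * (p i : ℤ) - n i) with hWdef
  obtain ⟨N2, hN2⟩ := hev
  have hWe : (2 : ℤ) ∣ W := by
    rw [hN2] at hpar
    push_cast at hpar
    omega
  have hW0 : W ≤ 0 := by omega
  set τ : ι → Ty := fun i => if 2 * (p i : ℤ) - n i ≤ W - 2 then Ty.I else
    if 2 * (p i : ℤ) - n i ≤ W then Ty.J else Ty.R with hτ
  have hP1 : ∀ i, 2 * (sb W (2 * (p i : ℤ) - n i) (p i) (n i) : ℤ) - n i ≤ pc (τ i) (n i) := by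
    intro i
    simp only [hτ, sb]
    split_ifs with h1 h2
    · simp only [pc]; omega
    · simp only [pc]; omega
    · simp only [pc]; push_cast; omega
  have hP : 0 ≤ ∑ i, pc (τ i) (n i) := by
    have h1 : ∑ i, (2 * (sb W (2 * (p i : ℤ) - n i) (p i) (n i) : ℤ) - n i) ≤
        ∑ i, pc (τ i) (n i) := sum_le_sum fun i _ => hP1 i
    rw [sum_sub_distrib, ← mul_sum] at h1
    have h2 : ((∑ i, n i : ℕ) : ℤ) ≤
        ((2 * ∑ i, sb W (2 * (p i : ℤ) - n i) (p i) (n i) : ℕ) : ℤ) := by exact_mod_cast hN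
    push_cast at h2
    linarith
  refine ⟨τ, ?_, hP, ?_⟩
  · intro i hi
    simp only [hτ] at hi
    split_ifs at hi with h1
    omega
  · by_cases hI : ∃ i, τ i = Ty.I
    · obtain ⟨i1, hi1⟩ := hI
      have hS1 : ∀ i, (2 * (p i : ℤ) - n i) ≤ sc (τ i) (n i) + if τ i = Ty.I then W else 0 := by
        intro i
        have hpi := hp i
        simp only [hτ]
        split_ifs with h1 h2 <;> simp only [sc] at * <;> omega
      have hS2 : W ≤ ∑ i, sc (τ i) (n i) + ∑ i, if τ i = Ty.I then W else 0 := by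
        rw [← sum_add_distrib]
        exact sum_le_sum fun i _ => hS1 i
      have hS3 : (∑ i, if τ i = Ty.I then W else 0) ≤ W := by
        rw [← add_sum_erase _ _ (mem_univ i1), if_pos hi1]
        have : (∑ x ∈ univ.erase i1, if τ x = Ty.I then W else 0) ≤ 0 :=
          sum_nonpos fun x _ => by split_ifs <;> omega
        linarith
      linarith
    · push Not at hI
      refine hP.trans (sum_le_sum fun i _ => ?_)
      have h1 := hI i
      cases hτi : τ i
      · exact absurd hτi h1
      · exact le_rfl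
      · simp only [pc, sc]; omega

theorem exists_le_sum (c : ι → ℕ) (s : Finset ι) : ∀ D ≤ ∑ i ∈ s, c i,
    ∃ d : ι → ℕ, (∀ i, d i ≤ c i) ∧ ∑ i ∈ s, d i = D := by
  induction s using Finset.induction_on with
  | empty =>
    intro D hD
    refine ⟨fun _ => 0, fun i => Nat.zero_le _, ?_⟩
    simp only [sum_empty] at hD ⊢
    omega
  | insert a s ha ih =>
    intro D hD
    rw [sum_insert ha] at hD
    obtain ⟨d, hd1, hd2⟩ := ih (D - min D (c a)) (by omega)
    refine ⟨Function.update d a (min D (c a)), ?_, ?_⟩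
    · intro i
      by_cases hi : i = a
      · subst hi
        rw [Function.update_self]
        exact min_le_right _ _
      · rw [Function.update_of_ne hi]
        exact hd1 i
    · rw [sum_insert ha, Function.update_self]
      have : ∑ x ∈ s, Function.update d a (min D (c a)) x = ∑ x ∈ s, d x :=
        sum_congr rfl fun x hx => by
          rw [Function.update_of_ne]
          rintro rfl
          exact ha hx
      rw [this, hd2]
      omega

theorem feas_of_cc (n : ι → ℕ) (hpos : ∀ i, 0 < n i) (hev : Even (∑ i, n i)) (h : CC n) :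
    Feas n 0 := by
  obtain ⟨τ, hI, hP, hS⟩ := h
  set c : ι → ℕ := fun i => if τ i = Ty.I then (n i - 2 - n i % 2) / 2 else 0 with hc
  set b : ι → ℕ := fun i => match τ i with
    | Ty.I => (n i - 2 - n i % 2) / 2
    | Ty.J => n i / 2
    | Ty.R => n i with hb
  have hbs : ∀ i, 2 * (b i : ℤ) - n i = sc (τ i) (n i) := by
    intro i
    have h2 := hI i
    simp only [hb]
    cases hτ : τ i <;> simp only [sc]
    · have := h2 hτ
      omega
    · omega
    · ring
  have hpar := par_sum n b
  rw [sum_congr rfl fun i _ => hbs i] at hpar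
  obtain ⟨N2, hN2⟩ := hev
  rw [hN2] at hpar
  push_cast at hpar
  obtain ⟨D, hD⟩ : ∃ D : ℕ, ∑ i, sc (τ i) (n i) = 2 * (D : ℤ) := by
    obtain ⟨z, hz⟩ := hpar
    exact ⟨(z + N2).toNat, by omega⟩
  have hcap : D ≤ ∑ i, c i := by
    have h1 : ∑ i, pc (τ i) (n i) + ∑ i, sc (τ i) (n i) ≤ ∑ i, 2 * (c i : ℤ) := by
      rw [← sum_add_distrib]
      refine sum_le_sum fun i _ => ?_
      have h2 := hI i
      simp only [hc]
      cases hτ : τ i <;> simp only [pc, sc]
      · have := h2 hτ
        rw [if_pos trivial]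
        omega
      · rw [if_neg (by decide)]
        push_cast
        omega
      · rw [if_neg (by decide)]
        push_cast
        omega
    rw [← mul_sum] at h1
    have h2 : ((∑ i, c i : ℕ) : ℤ) = ∑ i, (c i : ℤ) := by push_cast; rfl
    omega
  obtain ⟨d, hd1, hd2⟩ := exists_le_sum c univ D hcap
  have hdb : ∀ i, d i ≤ b i := by
    intro i
    refine (hd1 i).trans ?_
    simp only [hc, hb]
    cases hτ : τ i
    · rw [if_pos rfl]
    · rw [if_neg (by decide)]; exact Nat.zero_le _
    · rw [if_neg (by decide)]; exact Nat.zero_le _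
  have hps : ∀ i, 2 * ((b i - d i : ℕ) : ℤ) - n i = sc (τ i) (n i) - 2 * d i := by
    intro i
    rw [← hbs i]
    have := hdb i
    omega
  have hW : ∑ i, (2 * ((b i - d i : ℕ) : ℤ) - n i) = 0 := by
    rw [sum_congr rfl fun i _ => hps i, sum_sub_distrib, hD, ← mul_sum]
    have h2 : ((∑ i, d i : ℕ) : ℤ) = ∑ i, (d i : ℤ) := by push_cast; rfl
    omega
  refine ⟨fun i => b i - d i, ?_, hW.le, ?_⟩
  · intro i
    refine (Nat.sub_le _ _).trans ?_
    simp only [hb]
    cases hτ : τ i <;> simp only <;> omega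
  · rw [hW]
    have h1 : ∀ i, pc (τ i) (n i) ≤
        2 * (sb 0 (2 * ((b i - d i : ℕ) : ℤ) - n i) (b i - d i) (n i) : ℤ) - n i := by
      intro i
      have h2 := hps i
      have h3 : τ i = Ty.I → d i ≤ (n i - 2 - n i % 2) / 2 := fun h => by
        have h8 := hd1 i
        simp only [hc] at h8
        rwa [if_pos h] at h8
      have h3' : τ i ≠ Ty.I → d i ≤ 0 := fun h => by
        have h8 := hd1 i
        simp only [hc] at h8
        rwa [if_neg h] at h8
      have h4 := hpos i
      have h5 := hI i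
      have h6 := hdb i
      have h7 := hbs i
      rw [sb]
      cases hτ : τ i
      · have h3a := h3 hτ
        have h5a := h5 hτ
        rw [hτ] at h2 h7
        simp only [pc, sc] at h2 h7 ⊢
        rw [if_pos (by omega)]
        omega
      · have h3a := h3' (by rw [hτ]; decide)
        rw [hτ] at h2 h7
        simp only [pc, sc] at h2 h7 ⊢
        split_ifs <;> omega
      · have h3a := h3' (by rw [hτ]; decide)
        rw [hτ] at h2 h7
        simp only [pc, sc] at h2 h7 ⊢
        split_ifs <;> omega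
    have h2 : ∑ i, pc (τ i) (n i) ≤
        ∑ i, (2 * (sb 0 (2 * ((b i - d i : ℕ) : ℤ) - n i) (b i - d i) (n i) : ℤ) - n i) :=
      sum_le_sum fun i _ => h1 i
    rw [sum_sub_distrib, ← mul_sum] at h2
    have h3 : ((∑ i, n i : ℕ) : ℤ) ≤
        ((2 * ∑ i, sb 0 (2 * ((b i - d i : ℕ) : ℤ) - n i) (b i - d i) (n i) : ℕ) : ℤ) := by
      push_cast
      push_cast at h2
      linarith
    exact_mod_cast h3

/-- with an odd number of vertices there is a function of weight one, with an even number one of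
weight two -/
theorem feas_odd (n : ι → ℕ) (ho : (∑ i, n i) % 2 = 1) : Feas n 1 := by
  have hO : (∑ i, n i % 2) % 2 = 1 := by
    rw [Finset.sum_nat_mod] at ho
    exact ho
  obtain ⟨e, he1, he2⟩ := exists_le_sum (fun i => n i % 2) univ ((∑ i, n i % 2 + 1) / 2) (by omega)
  have hW : ∑ i, (2 * ((n i / 2 + e i : ℕ) : ℤ) - n i) = 1 := by
    have h1 : ∀ i, 2 * ((n i / 2 + e i : ℕ) : ℤ) - n i = 2 * (e i : ℤ) - ((n i % 2 : ℕ) : ℤ) := by
      intro i
      omega
    rw [sum_congr rfl fun i _ => h1 i, sum_sub_distrib, ← mul_sum]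
    have h2 : ((∑ i, e i : ℕ) : ℤ) = ∑ i, (e i : ℤ) := by push_cast; rfl
    have h3 : ((∑ i, n i % 2 : ℕ) : ℤ) = ∑ i, ((n i % 2 : ℕ) : ℤ) := by
      rw [Nat.cast_sum]
    omega
  refine ⟨fun i => n i / 2 + e i, ?_, hW.le, ?_⟩
  · intro i
    have := he1 i
    simp only at this ⊢
    omega
  · rw [hW, mul_sum]
    refine sum_le_sum fun i _ => ?_
    have := he1 i
    beta_reduce
    rw [sb]
    split_ifs <;> omega

theorem feas_even [Nonempty ι] (n : ι → ℕ) (hpos : ∀ i, 0 < n i) (ho : (∑ i, n i) % 2 = 0) :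
    Feas n 2 := by
  have hO : (∑ i, n i % 2) % 2 = 0 := by
    rw [Finset.sum_nat_mod] at ho
    exact ho
  by_cases h0 : ∑ i, n i % 2 = 0
  · obtain ⟨i0⟩ := ‹Nonempty ι›
    have hall : ∀ i, n i % 2 = 0 := fun i => by
      have := Finset.sum_eq_zero_iff.1 h0 i (mem_univ i)
      exact this
    have hW : ∑ i, (2 * ((n i / 2 + (if i = i0 then 1 else 0) : ℕ) : ℤ) - n i) = 2 := by
      have h1 : ∀ i, 2 * ((n i / 2 + (if i = i0 then 1 else 0) : ℕ) : ℤ) - n i =
          if i = i0 then 2 else 0 := by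
        intro i
        have := hall i
        split_ifs <;> omega
      rw [sum_congr rfl fun i _ => h1 i, sum_ite_eq' univ i0, if_pos (mem_univ _)]
    refine ⟨fun i => n i / 2 + (if i = i0 then 1 else 0), ?_, hW.le, ?_⟩
    · intro i
      have := hall i
      have := hpos i
      simp only
      split_ifs <;> omega
    · rw [hW, mul_sum]
      refine sum_le_sum fun i _ => ?_
      have h8 := hall i
      have h9 := hpos i
      beta_reduce
      rw [sb]
      by_cases h10 : i = i0
      · simp only [h10, if_true] at h8 h9 ⊢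
        split_ifs <;> omega
      · simp only [h10, if_false] at h8 h9 ⊢
        split_ifs <;> omega
  · obtain ⟨e, he1, he2⟩ := exists_le_sum (fun i => n i % 2) univ ((∑ i, n i % 2 + 2) / 2)
      (by omega)
    have hW : ∑ i, (2 * ((n i / 2 + e i : ℕ) : ℤ) - n i) = 2 := by
      have h1 : ∀ i, 2 * ((n i / 2 + e i : ℕ) : ℤ) - n i =
          2 * (e i : ℤ) - ((n i % 2 : ℕ) : ℤ) := by
        intro i
        omega
      rw [sum_congr rfl fun i _ => h1 i, sum_sub_distrib, ← mul_sum]
      have h2 : ((∑ i, e i : ℕ) : ℤ) = ∑ i, (e i : ℤ) := by push_cast; rfl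
      have h3 : ((∑ i, n i % 2 : ℕ) : ℤ) = ∑ i, ((n i % 2 : ℕ) : ℤ) := by
        rw [Nat.cast_sum]
      omega
    refine ⟨fun i => n i / 2 + e i, ?_, hW.le, ?_⟩
    · intro i
      have := he1 i
      simp only at this ⊢
      omega
    · rw [hW, mul_sum]
      refine sum_le_sum fun i _ => ?_
      have := he1 i
      beta_reduce
      rw [sb]
      split_ifs <;> omega

theorem Feas.mono {n : ι → ℕ} {K K' : ℤ} (h : Feas n K) (hK : K ≤ K') : Feas n K' := by
  obtain ⟨p, h1, h2, h3⟩ := h
  exact ⟨p, h1, h2.trans hK, h3⟩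

/-- the answer in closed form -/
theorem feas_iff [Nonempty ι] (n : ι → ℕ) (hpos : ∀ i, 0 < n i) (k : ℕ) (hk : 0 < k) :
    Feas n k ↔ (2 ≤ k ∨ (∑ i, n i) % 2 = 1 ∨ Crit n) := by
  constructor
  · intro h
    by_cases h2 : 2 ≤ k
    · exact Or.inl h2
    · by_cases ho : (∑ i, n i) % 2 = 1
      · exact Or.inr (Or.inl ho)
      · have hev : Even (∑ i, n i) := Nat.even_iff.2 (by omega)
        exact Or.inr (Or.inr ((cc_iff_crit n hpos hev).1
          (cc_of_feas n hpos hev k (by omega) h)))
  · intro h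
    by_cases ho : (∑ i, n i) % 2 = 1
    · exact (feas_odd n ho).mono (by exact_mod_cast hk)
    · rcases h with h | h | h
      · exact (feas_even n hpos (by omega)).mono (by exact_mod_cast h)
      · exact absurd h ho
      · have hev : Even (∑ i, n i) := Nat.even_iff.2 (by omega)
        exact (feas_of_cc n hpos hev ((cc_iff_crit n hpos hev).2 h)).mono (by positivity)

end

end Pool.Agent.R547.MJ
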