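import Pool.Agent.R547.MJ.Feas
import Pool.Agent.NPC.Dec

/-!
# Majority domination on complete multipartite graphs: the closed form and the algorithm
-/

set_option autoImplicit false

namespace Pool.Agent.R547.MJ

open Finset Pool.Agent.NPC

/-- the arithmetic criterion for lists -/
def CritL (ns : List ℕ) : Prop :=
  2 * ns.count 1 ≤ ns.sum ∧
  ((∀ n ∈ ns, n = 1 ∨ n = 3) → 3 ∣ ns.count 1) ∧
  ¬ (ns.length = 2 ∧ ns.count 1 = 1) ∧
  ¬ (ns.length = 4 ∧ ns.count 1 = 2 ∧ ∀ n ∈ ns, n = 1 ∨ (2 * n + 2 = ns.sum ∧ n % 2 = 1))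

theorem sum_get (ns : List ℕ) : ∑ i, ns.get i = ns.sum := by
  rw [← List.sum_ofFn, List.ofFn_get]

theorem forall_get (ns : List ℕ) (P : ℕ → Prop) : (∀ i, P (ns.get i)) ↔ ∀ n ∈ ns, P n := by
  constructor
  · intro h n hn
    obtain ⟨i, rfl⟩ := List.mem_iff_get.1 hn
    exact h i
  · intro h i
    exact h _ (List.get_mem _ _)

theorem count_get (ns : List ℕ) : ones ns.get = ns.count 1 := by
  rw [ones, card_filter]
  have h1 : (ns.map fun n => if n = 1 then 1 else 0).sum = ns.count 1 := by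
    induction ns with
    | nil => rfl
    | cons a l ih =>
      rw [List.map_cons, List.sum_cons, ih, List.count_cons]
      by_cases ha : a = 1
      · subst ha; simp; omega
      · rw [if_neg ha, if_neg (by simpa using ha)]; omega
  rw [← h1]
  have h2 : List.map (fun n => if n = 1 then 1 else 0) ns =
      List.ofFn (fun i => if ns.get i = 1 then 1 else 0) := by
    conv_lhs => rw [← List.ofFn_get ns, List.map_ofFn]
    rfl
  rw [h2, List.sum_ofFn]

theorem crit_get (ns : List ℕ) : Crit ns.get ↔ CritL ns := by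
  rw [CritL]
  constructor
  · rintro ⟨h1, h2, h3, h4⟩
    rw [count_get, sum_get] at h1
    rw [count_get, forall_get ns (fun n => n = 1 ∨ n = 3)] at h2
    rw [count_get, Fintype.card_fin] at h3
    rw [count_get, Fintype.card_fin,
      forall_get ns (fun n => n = 1 ∨ (2 * n + 2 = ∑ j, ns.get j ∧ n % 2 = 1)), sum_get] at h4
    exact ⟨h1, h2, h3, h4⟩
  · rintro ⟨h1, h2, h3, h4⟩
    refine ⟨?_, ?_, ?_, ?_⟩
    · rw [count_get, sum_get]; exact h1
    · rw [count_get, forall_get ns (fun n => n = 1 ∨ n = 3)]; exact h2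
    · rw [count_get, Fintype.card_fin]; exact h3
    · rw [count_get, Fintype.card_fin,
        forall_get ns (fun n => n = 1 ∨ (2 * n + 2 = ∑ j, ns.get j ∧ n % 2 = 1)), sum_get]
      exact h4

/-- the closed form of the answer -/
theorem exists_iff (ns : List ℕ) (hne : ns ≠ []) (hpos : ∀ n ∈ ns, 0 < n) (k : ℕ) (hk : 0 < k) :
    (∃ f : Vert ns → ℤ, IsMDF (Kgraph ns) f ∧ ∑ v, f v ≤ (k : ℤ)) ↔
      (2 ≤ k ∨ ns.sum % 2 = 1 ∨ CritL ns) := by
  have hpos' : ∀ i, 0 < ns.get i := (forall_get ns (fun n => 0 < n)).2 hpos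
  have hl : 0 < ns.length := List.length_pos_of_ne_nil hne
  have : Nonempty (Fin ns.length) := ⟨⟨0, hl⟩⟩
  rw [← crit_get, ← sum_get, ← feas_iff ns.get hpos' k hk]
  exact exists_mdf_iff ns.get (Kgraph ns) (fun _ _ => Iff.rfl) k

/-- the decision procedure for the criterion -/
def critb (ns : List ℕ) : Bool :=
  decide (2 * (ns.filter (fun n => decide (n = 1))).length ≤ ns.sum) &&
  (!(ns.all fun n => decide (n = 1) || decide (n = 3)) ||
    decide ((ns.filter (fun n => decide (n = 1))).length % 3 = 0)) &&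
  !(decide (ns.length = 2) && decide ((ns.filter (fun n => decide (n = 1))).length = 1)) &&
  !(decide (ns.length = 4) && decide ((ns.filter (fun n => decide (n = 1))).length = 2) &&
    ns.all fun n => decide (n = 1) || (decide (2 * n + 2 = ns.sum) && decide (n % 2 = 1)))

theorem critb_iff (ns : List ℕ) : critb ns = true ↔ CritL ns := by
  have hc : (ns.filter (fun n => decide (n = 1))).length = ns.count 1 := by
    rw [List.count_eq_length_filter]
    rfl
  rw [critb, CritL, hc]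
  simp only [Bool.and_eq_true, Bool.or_eq_true, Bool.not_eq_true', Bool.and_eq_false_iff,
    decide_eq_true_eq, decide_eq_false_iff_not, List.all_eq_false]
  constructor
  · rintro ⟨⟨⟨h1, h2⟩, h3⟩, h4⟩
    refine ⟨h1, ?_, ?_, ?_⟩
    · intro h
      rcases h2 with ⟨x, hx, hx'⟩ | h2
      · exact absurd (h x hx) hx'
      · exact Nat.dvd_of_mod_eq_zero h2
    · rintro ⟨h5, h6⟩
      rcases h3 with h3 | h3
      · exact h3 h5
      · exact h3 h6
    · rintro ⟨h5, h6, h7⟩
      rcases h4 with (h4 | h4) | ⟨x, hx, hx'⟩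
      · exact h4 h5
      · exact h4 h6
      · exact hx' (h7 x hx)
  · rintro ⟨h1, h2, h3, h4⟩
    refine ⟨⟨⟨h1, ?_⟩, ?_⟩, ?_⟩
    · by_cases h : ∀ n ∈ ns, n = 1 ∨ n = 3
      · exact Or.inr (Nat.mod_eq_zero_of_dvd (h2 h))
      · push Not at h
        obtain ⟨x, hx, hx'⟩ := h
        exact Or.inl ⟨x, hx, by rintro (h | h); exacts [hx'.1 h, hx'.2 h]⟩
    · by_cases h : ns.length = 2
      · exact Or.inr fun h6 => h3 ⟨h, h6⟩
      · exact Or.inl h
    · by_cases h : ns.length = 4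
      · by_cases h6 : ns.count 1 = 2
        · right
          by_contra hcon
          apply h4
          refine ⟨h, h6, fun n hn => ?_⟩
          by_contra h7
          exact hcon ⟨n, hn, h7⟩
        · exact Or.inl (Or.inr h6)
      · exact Or.inl (Or.inl h)

/-- the decision procedure -/
def majb (x : List ℕ × ℕ) : Bool :=
  !x.1.isEmpty && (x.1.all fun n => decide (0 < n)) && decide (0 < x.2) &&
    (decide (2 ≤ x.2) || (decide (x.1.sum % 2 = 1) || critb x.1))

theorem majb_iff (x : List ℕ × ℕ) : MajCMP x ↔ majb x = true := by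
  rw [majb, MajCMP]
  simp only [Bool.and_eq_true, Bool.or_eq_true, Bool.not_eq_true', decide_eq_true_eq,
    List.all_eq_true, critb_iff, List.isEmpty_eq_false_iff]
  constructor
  · rintro ⟨h1, h2, h3, h4⟩
    exact ⟨⟨⟨h1, h2⟩, h3⟩, (exists_iff x.1 h1 h2 x.2 h3).1 h4⟩
  · rintro ⟨⟨⟨h1, h2⟩, h3⟩, h4⟩
    exact ⟨h1, h2, h3, (exists_iff x.1 h1 h2 x.2 h3).2 h4⟩

theorem poly_critb : NPC.Poly critb := by
  have hid : NPC.Poly (fun ns : List ℕ => ns) := NPC.Poly.id
  have hone : NPC.Poly (fun ns : List ℕ => (ns.filter (fun n => decide (n = 1))).length) :=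
    NPC.Poly.length (NPC.Poly.filter (p := fun (_ : List ℕ) n => decide (n = 1)) hid
      (NPC.Poly.decide_eq (NPC.Poly.snd NPC.Poly.id) (NPC.Poly.const 1)))
  have hsum : NPC.Poly (fun ns : List ℕ => ns.sum) := NPC.Poly.sum hid
  have hlen : NPC.Poly (fun ns : List ℕ => ns.length) := NPC.Poly.length hid
  refine NPC.Poly.and (NPC.Poly.and (NPC.Poly.and ?_ ?_) ?_) ?_
  · exact NPC.Poly.decide_le (NPC.Poly.mul (NPC.Poly.const 2) hone) hsum
  · refine NPC.Poly.or (NPC.Poly.not ?_) ?_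
    · refine NPC.Poly.all (p := fun (_ : List ℕ) n => decide (n = 1) || decide (n = 3)) hid ?_
      exact NPC.Poly.or (NPC.Poly.decide_eq (NPC.Poly.snd NPC.Poly.id) (NPC.Poly.const 1))
        (NPC.Poly.decide_eq (NPC.Poly.snd NPC.Poly.id) (NPC.Poly.const 3))
    · exact NPC.Poly.decide_eq (NPC.Poly.mod hone (NPC.Poly.const 3)) (NPC.Poly.const 0)
  · exact NPC.Poly.not (NPC.Poly.and (NPC.Poly.decide_eq hlen (NPC.Poly.const 2))
      (NPC.Poly.decide_eq hone (NPC.Poly.const 1)))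
  · refine NPC.Poly.not (NPC.Poly.and (NPC.Poly.and (NPC.Poly.decide_eq hlen (NPC.Poly.const 4))
      (NPC.Poly.decide_eq hone (NPC.Poly.const 2))) ?_)
    refine NPC.Poly.all (p := fun (ns : List ℕ) n =>
      decide (n = 1) || (decide (2 * n + 2 = ns.sum) && decide (n % 2 = 1))) hid ?_
    refine NPC.Poly.or (NPC.Poly.decide_eq (NPC.Poly.snd NPC.Poly.id) (NPC.Poly.const 1)) (NPC.Poly.and ?_ ?_)
    · exact NPC.Poly.decide_eq (NPC.Poly.add (NPC.Poly.mul (NPC.Poly.const 2) (NPC.Poly.snd NPC.Poly.id)) (NPC.Poly.const 2))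
        (NPC.Poly.sum (NPC.Poly.fst NPC.Poly.id))
    · exact NPC.Poly.decide_eq (NPC.Poly.mod (NPC.Poly.snd NPC.Poly.id) (NPC.Poly.const 2)) (NPC.Poly.const 1)

theorem poly_majb : NPC.Poly majb := by
  have hid : NPC.Poly (fun x : List ℕ × ℕ => x) := NPC.Poly.id
  have h1 : NPC.Poly (fun x : List ℕ × ℕ => x.1) := NPC.Poly.fst hid
  have h2 : NPC.Poly (fun x : List ℕ × ℕ => x.2) := NPC.Poly.snd hid
  refine NPC.Poly.and (NPC.Poly.and (NPC.Poly.and ?_ ?_) ?_) ?_
  · exact NPC.Poly.not (NPC.Poly.isEmpty h1)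
  · refine NPC.Poly.all (p := fun (_ : List ℕ × ℕ) n => decide (0 < n)) h1 ?_
    exact NPC.Poly.decide_lt (NPC.Poly.const 0) (NPC.Poly.snd NPC.Poly.id)
  · exact NPC.Poly.decide_lt (NPC.Poly.const 0) h2
  · refine NPC.Poly.or (NPC.Poly.decide_le (NPC.Poly.const 2) h2) (NPC.Poly.or ?_ (poly_critb.comp h1))
    exact NPC.Poly.decide_eq (NPC.Poly.mod (NPC.Poly.sum h1) (NPC.Poly.const 2)) (NPC.Poly.const 1)

theorem majCMP_inP : InPP MajCMP := inPP_of poly_majb majb_iff

theorem majCMP_collapse (h : NPHardP MajCMP) : ∀ L, InNP L → InP L :=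
  NPHardP.collapse h poly_majb majb_iff

end Pool.Agent.R547.MJ
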