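import Mathlib

/-!
# The combinatorial criterion, necessity
-/

set_option autoImplicit false

namespace Pool.Agent.R547.MJ

open Finset

/-- the three types of parts -/
inductive Ty | I | J | R
deriving DecidableEq

/-- contribution to the first inequality -/
def pc : Ty → ℕ → ℤ
  | Ty.I, x => (x : ℤ)
  | Ty.J, x => -((x % 2 : ℕ) : ℤ)
  | Ty.R, x => -(x : ℤ)

/-- contribution to the second inequality -/
def sc : Ty → ℕ → ℤ
  | Ty.I, x => -(2 + ((x % 2 : ℕ) : ℤ))
  | Ty.J, x => -((x % 2 : ℕ) : ℤ)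
  | Ty.R, x => (x : ℤ)

section

variable {ι : Type} [Fintype ι] [DecidableEq ι]

/-- the combinatorial condition -/
def CC (n : ι → ℕ) : Prop :=
  ∃ τ : ι → Ty, (∀ i, τ i = Ty.I → 2 ≤ n i) ∧ 0 ≤ ∑ i, pc (τ i) (n i) ∧ 0 ≤ ∑ i, sc (τ i) (n i)

/-- the number of parts of size one -/
def ones (n : ι → ℕ) : ℕ := #{i | n i = 1}

/-- the arithmetic criterion -/
structure Crit (n : ι → ℕ) : Prop where
  half : 2 * ones n ≤ ∑ i, n i
  e1 : (∀ i, n i = 1 ∨ n i = 3) → 3 ∣ ones n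
  e2 : ¬ (Fintype.card ι = 2 ∧ ones n = 1)
  e3 : ¬ (Fintype.card ι = 4 ∧ ones n = 2 ∧
    ∀ i, n i = 1 ∨ (2 * n i + 2 = ∑ j, n j ∧ n i % 2 = 1))

theorem ones_eq (n : ι → ℕ) : (ones n : ℤ) = ∑ i, if n i = 1 then (1 : ℤ) else 0 := by
  rw [ones, card_filter]
  push_cast
  rfl

theorem half_of_cc (n : ι → ℕ) (hpos : ∀ i, 0 < n i) (h : CC n) : 2 * ones n ≤ ∑ i, n i := by
  obtain ⟨τ, h2, hP, -⟩ := h
  have h1 : ∑ i, pc (τ i) (n i) ≤ ∑ i, ((n i : ℤ) - 2 * if n i = 1 then (1 : ℤ) else 0) := by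
    refine sum_le_sum fun i _ => ?_
    have h3 := hpos i
    have h4 := h2 i
    cases hτ : τ i <;> simp only [pc] <;> split_ifs with h5
    · have := h4 hτ; omega
    · omega
    · rw [h5]; norm_num
    · omega
    · omega
    · omega
  rw [sum_sub_distrib, ← mul_sum, ← ones_eq] at h1
  have h6 : (2 * (ones n : ℤ)) ≤ ∑ i, (n i : ℤ) := by linarith
  have h7 : ((2 * ones n : ℕ) : ℤ) ≤ ((∑ i, n i : ℕ) : ℤ) := by push_cast; exact h6
  exact_mod_cast h7

theorem e1_of_cc (n : ι → ℕ) (h : CC n) (hn : ∀ i, n i = 1 ∨ n i = 3) : 3 ∣ ones n := by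
  obtain ⟨τ, h2, hP, hS⟩ := h
  have h1 : ∀ i, pc (τ i) (n i) + sc (τ i) (n i) = if τ i = Ty.J then -2 else 0 := by
    intro i
    cases hτ : τ i <;> simp only [pc, sc]
    · rcases hn i with h3 | h3
      · have := h2 i hτ; omega
      · rw [h3]; rfl
    · rcases hn i with h3 | h3 <;> rw [h3] <;> rfl
    · simp
  have h3 : ∑ i, (if τ i = Ty.J then (-2 : ℤ) else 0) = ∑ i, pc (τ i) (n i) + ∑ i, sc (τ i) (n i) := by
    rw [← sum_add_distrib]
    exact sum_congr rfl fun i _ => (h1 i).symm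
  have hJ : ∀ i, τ i ≠ Ty.J := by
    intro i hi
    have h4 : ∑ i, (if τ i = Ty.J then (-2 : ℤ) else 0) ≤ -2 := by
      rw [← add_sum_erase _ _ (mem_univ i), if_pos hi]
      have : ∑ x ∈ univ.erase i, (if τ x = Ty.J then (-2 : ℤ) else 0) ≤ 0 :=
        sum_nonpos fun x _ => by split_ifs <;> norm_num
      linarith
    linarith
  have h5 : ∑ i, (if τ i = Ty.J then (-2 : ℤ) else 0) = 0 :=
    sum_eq_zero fun i _ => by rw [if_neg (hJ i)]
  have hP0 : ∑ i, pc (τ i) (n i) = 0 := by linarith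
  have h6 : (3 : ℤ) ∣ ∑ i, (pc (τ i) (n i) + if n i = 1 then (1 : ℤ) else 0) := by
    refine dvd_sum fun i _ => ?_
    cases hτ : τ i <;> simp only [pc]
    · rcases hn i with h7 | h7
      · have := h2 i hτ; omega
      · rw [h7]; norm_num
    · exact absurd hτ (hJ i)
    · rcases hn i with h7 | h7 <;> rw [h7] <;> norm_num
  rw [sum_add_distrib, hP0, zero_add, ← ones_eq] at h6
  exact_mod_cast h6

theorem e2_of_cc (n : ι → ℕ) (hpos : ∀ i, 0 < n i) (hev : Even (∑ i, n i)) (h : CC n) :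
    ¬ (Fintype.card ι = 2 ∧ ones n = 1) := by
  rintro ⟨hc, ho⟩
  obtain ⟨τ, h2, hP, hS⟩ := h
  obtain ⟨x, hx⟩ := card_eq_one.1 ho
  have hx1 : n x = 1 := by
    have : x ∈ ({i | n i = 1} : Finset ι) := by rw [hx]; exact mem_singleton_self x
    simpa using this
  have hxne : ∀ y, y ≠ x → n y ≠ 1 := by
    intro y hy h1
    have : y ∈ ({i | n i = 1} : Finset ι) := by simpa using h1
    rw [hx, mem_singleton] at this
    exact hy this
  have hc2 : #(univ.erase x) = 1 := by rw [card_erase_of_mem (mem_univ x), card_univ, hc]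
  obtain ⟨y, hy⟩ := card_eq_one.1 hc2
  have hyx : y ≠ x := by
    have : y ∈ univ.erase x := by rw [hy]; exact mem_singleton_self y
    exact ne_of_mem_erase this
  have hsum : ∀ g : ι → ℤ, ∑ i, g i = g x + g y := by
    intro g
    rw [← add_sum_erase _ _ (mem_univ x), hy, sum_singleton]
  have hsumN : ∑ i, n i = n x + n y := by
    rw [← add_sum_erase _ _ (mem_univ x), hy, sum_singleton]
  rw [hsum] at hP hS
  rw [hsumN, hx1] at hev
  have hy1 := hxne y hyx
  have hy0 := hpos y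
  have hodd : n y % 2 = 1 := by
    obtain ⟨k, hk⟩ := hev
    omega
  have hx2 := h2 x
  rw [hx1] at hx2 hP hS
  cases hτx : τ x <;> cases hτy : τ y <;> rw [hτx, hτy] at hP hS <;> simp only [pc, sc] at hP hS
  all_goals first
    | (have := hx2 hτx; omega)
    | omega

theorem e3_of_cc (n : ι → ℕ) (h : CC n) :
    ¬ (Fintype.card ι = 4 ∧ ones n = 2 ∧
    ∀ i, n i = 1 ∨ (2 * n i + 2 = ∑ j, n j ∧ n i % 2 = 1)) := by
  rintro ⟨hc, ho, hn⟩
  obtain ⟨τ, h2, hP, hS⟩ := h
  obtain ⟨x, y, hxy, hO⟩ := card_eq_two.1 ho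
  have hB : #({i | ¬ n i = 1} : Finset ι) = 2 := by
    have := card_filter_add_card_filter_not (s := (univ : Finset ι)) (p := fun i => n i = 1)
    rw [card_univ, hc] at this
    have h3 : #({i | n i = 1} : Finset ι) = 2 := ho
    omega
  obtain ⟨z, w, hzw, hB'⟩ := card_eq_two.1 hB
  have hsum : ∀ g : ι → ℤ, ∑ i, g i = (g x + g y) + (g z + g w) := by
    intro g
    rw [← sum_filter_add_sum_filter_not univ (fun i => n i = 1), hO, hB', sum_pair hxy,
      sum_pair hzw]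
  have hx1 : n x = 1 := by
    have : x ∈ ({i | n i = 1} : Finset ι) := by rw [hO]; simp
    simpa using this
  have hy1 : n y = 1 := by
    have : y ∈ ({i | n i = 1} : Finset ι) := by rw [hO]; simp
    simpa using this
  have hz1 : n z ≠ 1 := by
    have : z ∈ ({i | ¬ n i = 1} : Finset ι) := by rw [hB']; simp
    simpa using this
  have hw1 : n w ≠ 1 := by
    have : w ∈ ({i | ¬ n i = 1} : Finset ι) := by rw [hB']; simp
    simpa using this
  have hz := (hn z).resolve_left hz1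
  have hw := (hn w).resolve_left hw1
  rw [hsum] at hP hS
  have hzw' : n z = n w := by omega
  have hx2 := h2 x
  have hy2 := h2 y
  rw [hx1] at hx2
  rw [hy1] at hy2
  rw [hx1, hy1] at hP hS
  have hz2 := hz.2
  have hw2 := hw.2
  rw [hzw'] at hP hS hz1 hz2
  have ex : τ x = Ty.J ∨ τ x = Ty.R := by
    cases hτ : τ x
    · have := hx2 hτ; omega
    · exact Or.inl rfl
    · exact Or.inr rfl
  have ey : τ y = Ty.J ∨ τ y = Ty.R := by
    cases hτ : τ y
    · have := hy2 hτ; omega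
    · exact Or.inl rfl
    · exact Or.inr rfl
  clear h2 hn hsum hO hB' hB ho hc
  rcases ex with ex | ex <;> rcases ey with ey | ey <;> cases hτz : τ z <;> cases hτw : τ w <;>
    rw [ex, ey, hτz, hτw] at hP hS <;> simp only [pc, sc] at hP hS <;> omega

theorem crit_of_cc (n : ι → ℕ) (hpos : ∀ i, 0 < n i) (hev : Even (∑ i, n i)) (h : CC n) :
    Crit n :=
  ⟨half_of_cc n hpos h, e1_of_cc n h, e2_of_cc n hpos hev h, e3_of_cc n h⟩

end

end Pool.Agent.R547.MJ
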