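import Pool.Agent.R547.MJ.Defs

/-!
# From majority dominating functions to numbers
-/

set_option autoImplicit false

namespace Pool.Agent.R547.MJ

open Finset

/-- the number of satisfied vertices in a part of size `m` with `p` plus ones and sum `s`, if the
total weight is `W` -/
def sb (W s : ℤ) (p m : ℕ) : ℕ := if s ≤ W - 2 then m else if s ≤ W then p else 0

theorem part_sum {m : ℕ} (f : Fin m → ℤ) (hf : ∀ j, f j = -1 ∨ f j = 1) :
    ∑ j, f j = 2 * (#{j | f j = 1} : ℤ) - m := by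
  have h1 : (#{j | f j = 1} : ℤ) = ∑ j, if f j = 1 then (1 : ℤ) else 0 := by
    rw [card_filter]
    push_cast
    rfl
  have h2 : (m : ℤ) = ∑ _j : Fin m, (1 : ℤ) := by simp
  rw [h1, h2, mul_sum, ← sum_sub_distrib]
  refine sum_congr rfl fun j _ => ?_
  rcases hf j with h | h <;> rw [h] <;> norm_num

theorem sat_count {m : ℕ} (f : Fin m → ℤ) (hf : ∀ j, f j = -1 ∨ f j = 1) (W s : ℤ) :
    #{j | 1 ≤ W - s + f j} = sb W s (#{j | f j = 1}) m := by
  rw [sb]
  split_ifs with h1 h2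
  · rw [filter_true_of_mem, card_univ, Fintype.card_fin]
    intro j _
    rcases hf j with h | h <;> rw [h] <;> omega
  · congr 1
    refine filter_congr fun j _ => ?_
    rcases hf j with h | h <;> rw [h]
    · constructor
      · intro h3; omega
      · intro h3; omega
    · constructor
      · intro h3; rfl
      · intro h3; omega
  · rw [card_eq_zero, filter_eq_empty_iff]
    intro j _
    rcases hf j with h | h <;> rw [h] <;> omega

section

variable {ι : Type} [Fintype ι] [DecidableEq ι]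

theorem closedSum_eq (n : ι → ℕ) (G : SimpleGraph (Σ i : ι, Fin (n i)))
    (hG : ∀ u v, G.Adj u v ↔ u.1 ≠ v.1) (f : (Σ i : ι, Fin (n i)) → ℤ) (v : Σ i : ι, Fin (n i)) :
    closedSum G f v = (∑ u, f u) - (∑ j, f ⟨v.1, j⟩) + f v := by
  have h1 : ∑ j, f ⟨v.1, j⟩ = ∑ u : (Σ i : ι, Fin (n i)), if u.1 = v.1 then f u else 0 := by
    rw [Fintype.sum_sigma]
    rw [sum_eq_single_of_mem v.1 (mem_univ _)]
    · simp
    · intro i _ hi
      simp [hi]
  have h2 : f v = ∑ u : (Σ i : ι, Fin (n i)), if u = v then f u else 0 := by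
    rw [sum_ite_eq' univ v, if_pos (mem_univ _)]
  rw [h1]
  conv_rhs => rw [h2]
  rw [closedSum, sum_filter, ← sum_sub_distrib, ← sum_add_distrib]
  refine sum_congr rfl fun u _ => ?_
  rw [hG]
  by_cases h3 : u = v
  · subst h3
    simp
  · by_cases h4 : u.1 = v.1
    · rw [if_neg, if_pos h4, if_neg h3]
      · ring
      · rintro (h | h)
        · exact h3 h
        · exact h h4.symm
    · rw [if_pos (Or.inr fun h => h4 h.symm), if_neg h4, if_neg h3]
      ring

theorem mdf_iff (n : ι → ℕ) (G : SimpleGraph (Σ i : ι, Fin (n i)))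
    (hG : ∀ u v, G.Adj u v ↔ u.1 ≠ v.1) (f : (Σ i : ι, Fin (n i)) → ℤ)
    (hf : ∀ v, f v = -1 ∨ f v = 1) :
    IsMDF G f ↔ ∑ i, n i ≤
      2 * ∑ i, sb (∑ v, f v) (∑ j, f ⟨i, j⟩) (#{j | f ⟨i, j⟩ = 1}) (n i) := by
  have h1 : {v | 1 ≤ closedSum G f v}.ncard =
      ∑ i, sb (∑ v, f v) (∑ j, f ⟨i, j⟩) (#{j | f ⟨i, j⟩ = 1}) (n i) := by
    have h2 : {v | 1 ≤ closedSum G f v} =
        ((univ.filter fun v => 1 ≤ closedSum G f v : Finset (Σ i : ι, Fin (n i))) :
          Set (Σ i : ι, Fin (n i))) := by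
      ext v; simp
    rw [h2, Set.ncard_coe_finset, card_filter, Fintype.sum_sigma]
    refine sum_congr rfl fun i _ => ?_
    rw [← sat_count (fun j => f ⟨i, j⟩) (fun j => hf ⟨i, j⟩), card_filter]
    refine sum_congr rfl fun j _ => ?_
    rw [closedSum_eq n G hG]
  have h3 : Fintype.card (Σ i : ι, Fin (n i)) = ∑ i, n i := by
    rw [Fintype.card_sigma]
    simp
  rw [IsMDF, h1, h3]
  constructor
  · rintro ⟨-, h⟩
    have h4 : ((∑ i, n i : ℕ) : ℝ) ≤
        ((2 * ∑ i, sb (∑ v, f v) (∑ j, f ⟨i, j⟩) (#{j | f ⟨i, j⟩ = 1}) (n i) : ℕ) : ℝ) := by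
      rw [Nat.cast_mul]
      push_cast at h ⊢
      linarith
    exact_mod_cast h4
  · intro h
    refine ⟨hf, ?_⟩
    have h4 : ((∑ i, n i : ℕ) : ℝ) ≤
        ((2 * ∑ i, sb (∑ v, f v) (∑ j, f ⟨i, j⟩) (#{j | f ⟨i, j⟩ = 1}) (n i) : ℕ) : ℝ) := by
      exact_mod_cast h
    rw [Nat.cast_mul] at h4
    push_cast at h4 ⊢
    linarith

/-- feasibility in terms of the numbers of plus ones in the parts -/
def Feas (n : ι → ℕ) (K : ℤ) : Prop :=
  ∃ p : ι → ℕ, (∀ i, p i ≤ n i) ∧ ∑ i, (2 * (p i : ℤ) - n i) ≤ K ∧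
    ∑ i, n i ≤ 2 * ∑ i, sb (∑ i, (2 * (p i : ℤ) - n i)) (2 * (p i : ℤ) - n i) (p i) (n i)

theorem exists_mdf_iff (n : ι → ℕ) (G : SimpleGraph (Σ i : ι, Fin (n i)))
    (hG : ∀ u v, G.Adj u v ↔ u.1 ≠ v.1) (K : ℤ) :
    (∃ f : (Σ i : ι, Fin (n i)) → ℤ, IsMDF G f ∧ ∑ v, f v ≤ K) ↔ Feas n K := by
  constructor
  · rintro ⟨f, hf, hK⟩
    have hf1 := hf.1
    rw [mdf_iff n G hG f hf1] at hf
    have hs : ∀ i, ∑ j, f ⟨i, j⟩ = 2 * (#{j | f ⟨i, j⟩ = 1} : ℤ) - n i := fun i =>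
      part_sum (fun j => f ⟨i, j⟩) fun j => hf1 ⟨i, j⟩
    have hW : ∑ v, f v = ∑ i, (2 * (#{j | f ⟨i, j⟩ = 1} : ℤ) - n i) := by
      rw [Fintype.sum_sigma]
      exact sum_congr rfl fun i _ => hs i
    refine ⟨fun i => #{j | f ⟨i, j⟩ = 1}, fun i => ?_, ?_, ?_⟩
    · exact (card_filter_le _ _).trans (by simp)
    · rw [← hW]; exact hK
    · rw [← hW]
      simp only [← hs]
      exact hf
  · rintro ⟨p, hp, hK, hN⟩
    set f : (Σ i : ι, Fin (n i)) → ℤ := fun v => if (v.2 : ℕ) < p v.1 then 1 else -1 with hfdef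
    have hf1 : ∀ v, f v = -1 ∨ f v = 1 := by
      intro v
      simp only [hfdef]
      split_ifs
      · exact Or.inr rfl
      · exact Or.inl rfl
    have hcnt : ∀ i, #{j | f ⟨i, j⟩ = 1} = p i := by
      intro i
      have h1 : ({j | f ⟨i, j⟩ = 1} : Finset (Fin (n i))) =
          (univ : Finset (Fin (p i))).map (Fin.castLEEmb (hp i)) := by
        ext j
        simp only [mem_filter, mem_univ, true_and, mem_map, hfdef]
        constructor
        · intro h
          have h2 : (j : ℕ) < p i := by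
            by_contra hcon
            rw [if_neg hcon] at h
            norm_num at h
          exact ⟨⟨j, h2⟩, rfl⟩
        · rintro ⟨j', rfl⟩
          have h2 : ((Fin.castLEEmb (hp i) j' : Fin (n i)) : ℕ) < p i := j'.2
          rw [if_pos h2]
      rw [h1, card_map, card_univ, Fintype.card_fin]
    have hs : ∀ i, ∑ j, f ⟨i, j⟩ = 2 * (p i : ℤ) - n i := fun i => by
      rw [part_sum (fun j => f ⟨i, j⟩) (fun j => hf1 ⟨i, j⟩), hcnt i]
    have hW : ∑ v, f v = ∑ i, (2 * (p i : ℤ) - n i) := by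
      rw [Fintype.sum_sigma]
      exact sum_congr rfl fun i _ => hs i
    refine ⟨f, ?_, by rw [hW]; exact hK⟩
    rw [mdf_iff n G hG f hf1, hW]
    simp only [hs, hcnt]
    exact hN

end

end Pool.Agent.R547.MJ
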