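import Pool.Agent.R547.MJ.Nec

/-!
# The combinatorial criterion, sufficiency if some part has at least four vertices
-/

set_option autoImplicit false

namespace Pool.Agent.R547.MJ

open Finset

section

variable {ι : Type} [Fintype ι] [DecidableEq ι]

theorem sum_update_eq (g : Ty → ℕ → ℤ) (τ : ι → Ty) (n : ι → ℕ) (r : ι) (t : Ty) :
    ∑ i, g (Function.update τ r t i) (n i) = ∑ i, g (τ i) (n i) - g (τ r) (n r) + g t (n r) := by
  rw [← add_sum_erase univ _ (mem_univ r), ← add_sum_erase univ (fun i => g (τ i) (n i)) (mem_univ r)]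
  rw [Function.update_self]
  have : ∑ x ∈ univ.erase r, g (Function.update τ r t x) (n x) =
      ∑ x ∈ univ.erase r, g (τ x) (n x) := by
    refine sum_congr rfl fun x hx => ?_
    rw [Function.update_of_ne (ne_of_mem_erase hx)]
  rw [this]
  ring

theorem cc_big (n : ι → ℕ) (hpos : ∀ i, 0 < n i) (hev : Even (∑ i, n i)) (hc : Crit n)
    (i0 : ι) (hmax : ∀ i, n i ≤ n i0) (h4 : 4 ≤ n i0) : CC n := by
  obtain ⟨N2, hN2⟩ := hev
  have hhalf := hc.half
  obtain ⟨H, hH⟩ : ∃ H, N2 = H + ones n := ⟨N2 - ones n, by omega⟩
  set B' : Finset ι := univ.filter (fun i => 2 ≤ n i ∧ i ≠ i0) with hB'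
  set cands : Finset (Finset ι) := B'.powerset.filter (fun M => ∑ i ∈ M, n i ≤ H) with hcands
  have hne : cands.Nonempty := ⟨∅, by simp [hcands]⟩
  obtain ⟨M, hM, hMmax⟩ := exists_max_image cands (fun M => ∑ i ∈ M, n i) hne
  have hM1 : M ⊆ B' := mem_powerset.1 (mem_filter.1 hM).1
  have hM2 : ∑ i ∈ M, n i ≤ H := (mem_filter.1 hM).2
  have hMbig : ∀ i ∈ M, 2 ≤ n i ∧ i ≠ i0 := fun i hi => (mem_filter.1 (hM1 hi)).2
  set NM : ℕ := ∑ i ∈ M, n i with hNM
  have hNM' : (NM : ℤ) = ∑ i, if i ∈ M then (n i : ℤ) else 0 := by
    rw [hNM, sum_ite_mem, univ_inter]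
    push_cast
    rfl
  have hNN : ((∑ i, n i : ℕ) : ℤ) = ∑ i, (n i : ℤ) := by push_cast; rfl
  set τ0 : ι → Ty := fun i => if i ∈ M ∨ n i < 2 then Ty.R else Ty.I with hτ0
  have hP0 : ∑ i, pc (τ0 i) (n i) = 2 * (H : ℤ) - 2 * NM := by
    have h1 : ∀ i, pc (τ0 i) (n i) = (n i : ℤ) - 2 * (if i ∈ M then (n i : ℤ) else 0) -
        2 * (if n i = 1 then (1 : ℤ) else 0) := by
      intro i
      have hp := hpos i
      by_cases hi : i ∈ M
      · have := (hMbig i hi).1
        simp only [hτ0, hi, true_or, if_true, pc]
        rw [if_neg (by omega)]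
        ring
      · by_cases hi2 : n i < 2
        · simp only [hτ0, hi2, or_true, if_true, pc, hi, if_false]
          rw [if_pos (by omega)]
          omega
        · simp only [hτ0, hi, hi2, or_self, if_false, pc]
          rw [if_neg (by omega)]
          ring
    rw [sum_congr rfl fun i _ => h1 i, sum_sub_distrib, sum_sub_distrib, ← mul_sum, ← mul_sum,
      ← hNM', ← ones_eq, ← hNN]
    omega
  set t : ι → ℤ := fun i => if i ∈ M ∨ n i < 2 then 0 else (n i : ℤ) - 2 - ((n i % 2 : ℕ) : ℤ)
    with ht
  have ht0 : ∀ i, 0 ≤ t i := by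
    intro i
    simp only [ht]
    split_ifs with h
    · exact le_rfl
    · push Not at h
      omega
  have hT : ∑ i, pc (τ0 i) (n i) + ∑ i, sc (τ0 i) (n i) = ∑ i, t i := by
    rw [← sum_add_distrib]
    refine sum_congr rfl fun i _ => ?_
    simp only [hτ0, ht]
    split_ifs
    · simp [pc, sc]
    · simp only [pc, sc]; ring
  have hTe : (2 : ℤ) ∣ ∑ i, t i := by
    refine dvd_sum fun i _ => ?_
    simp only [ht]
    split_ifs
    · exact dvd_zero _
    · omega
  have hI2 : ∀ i, τ0 i = Ty.I → 2 ≤ n i := by
    intro i hi
    by_contra hcon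
    simp only [hτ0] at hi
    rw [if_pos (Or.inr (by omega))] at hi
    exact absurd hi (by decide)
  have hi0M : i0 ∉ M := fun h => (hMbig i0 h).2 rfl
  have ti0 : t i0 = (n i0 : ℤ) - 2 - ((n i0 % 2 : ℕ) : ℤ) := by
    simp only [ht]
    rw [if_neg]
    push Not
    exact ⟨hi0M, by omega⟩
  by_cases hrej : ∀ i, 2 ≤ n i → i ≠ i0 → i ∈ M
  · -- nothing rejected
    have hN : (NM : ℤ) + n i0 + ones n = ∑ i, (n i : ℤ) := by
      rw [hNM', ones_eq]
      have h1 : (n i0 : ℤ) = ∑ i, if i = i0 then (n i0 : ℤ) else 0 := by
        rw [sum_ite_eq' univ i0, if_pos (mem_univ _)]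
      rw [h1, ← sum_add_distrib, ← sum_add_distrib]
      refine sum_congr rfl fun i _ => ?_
      have hp := hpos i
      by_cases hi : i = i0
      · subst hi
        rw [if_neg hi0M, if_pos rfl, if_neg (by omega)]
        ring
      · by_cases hi2 : 2 ≤ n i
        · rw [if_pos (hrej i hi2 hi), if_neg hi, if_neg (by omega)]
          ring
        · have : i ∉ M := fun h => hi2 (hMbig i h).1
          rw [if_neg this, if_neg hi, if_pos (by omega)]
          omega
    have hTi : ∑ i, t i = t i0 := by
      refine sum_eq_single_of_mem i0 (mem_univ _) fun i _ hi => ?_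
      simp only [ht]
      by_cases hi2 : 2 ≤ n i
      · rw [if_pos (Or.inl (hrej i hi2 hi))]
      · rw [if_pos (Or.inr (by omega))]
    rw [← hNN] at hN
    by_cases hbig : (2 + n i0 % 2) + n i0 ≤ ∑ i, n i
    · refine ⟨τ0, hI2, by rw [hP0]; omega, ?_⟩
      rw [hTi, ti0, hP0] at hT
      omega
    · have herase : n i0 + ∑ i ∈ univ.erase i0, n i = ∑ i, n i := add_sum_erase _ _ (mem_univ i0)
      have hcard : #(univ.erase i0) ≤ ∑ i ∈ univ.erase i0, n i := by
        rw [card_eq_sum_ones]
        exact sum_le_sum fun i _ => hpos i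
      have hce : #(univ.erase i0) = Fintype.card ι - 1 := by
        rw [card_erase_of_mem (mem_univ _), card_univ]
      have hcp : 0 < Fintype.card ι := Fintype.card_pos_iff.2 ⟨i0⟩
      rcases Nat.even_or_odd (n i0) with he | ho
      · -- a single part
        have he' : n i0 % 2 = 0 := Nat.even_iff.1 he
        have h0 : #(univ.erase i0) = 0 := by omega
        have hall : ∀ i, i = i0 := by
          intro i
          by_contra hi
          have : i ∈ univ.erase i0 := mem_erase.2 ⟨hi, mem_univ _⟩
          rw [card_eq_zero.1 h0] at this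
          simp at this
        refine ⟨fun _ => Ty.J, fun i h => Ty.noConfusion h, ?_, ?_⟩
        · refine sum_nonneg fun i _ => ?_
          rw [hall i]; simp only [pc]; omega
        · refine sum_nonneg fun i _ => ?_
          rw [hall i]; simp only [sc]; omega
      · exfalso
        have ho' : n i0 % 2 = 1 := Nat.odd_iff.1 ho
        have hs1 : ∑ i ∈ univ.erase i0, n i = 1 := by omega
        have hc1 : #(univ.erase i0) = 1 := by
          rcases Nat.eq_zero_or_pos (#(univ.erase i0)) with h0 | h0
          · rw [card_eq_zero.1 h0] at hs1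
            simp at hs1
          · omega
        obtain ⟨y, hy⟩ := card_eq_one.1 hc1
        rw [hy, sum_singleton] at hs1
        apply hc.e2
        refine ⟨by omega, ?_⟩
        rw [ones, card_eq_one]
        refine ⟨y, ?_⟩
        ext i
        simp only [mem_filter, mem_univ, true_and, mem_singleton]
        constructor
        · intro hi
          have : i ∈ univ.erase i0 := mem_erase.2 ⟨fun h => by rw [h] at hi; omega, mem_univ _⟩
          rw [hy] at this
          exact mem_singleton.1 this
        · rintro rfl
          exact hs1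
  · -- there are rejected parts
    push Not at hrej
    set Rej : Finset ι := univ.filter (fun i => 2 ≤ n i ∧ i ≠ i0 ∧ i ∉ M) with hRej
    have hRne : Rej.Nonempty := by
      obtain ⟨i, h1, h2, h3⟩ := hrej
      exact ⟨i, by simp [hRej, h1, h2, h3]⟩
    obtain ⟨r, hr, hrmin⟩ := exists_min_image Rej n hRne
    have hr' : 2 ≤ n r ∧ r ≠ i0 ∧ r ∉ M := by simpa [hRej] using hr
    obtain ⟨hr2, hri0, hrM⟩ := hr'
    have hover : H < NM + n r := by
      by_contra hcon
      have h1 : insert r M ∈ cands := by
        rw [hcands, mem_filter, mem_powerset]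
        refine ⟨insert_subset (by simp [hB', hr2, hri0]) hM1, ?_⟩
        rw [sum_insert hrM]
        omega
      have h2 := hMmax _ h1
      rw [sum_insert hrM] at h2
      omega
    have tr : t r = (n r : ℤ) - 2 - ((n r % 2 : ℕ) : ℤ) := by
      simp only [ht]
      rw [if_neg]
      push Not
      exact ⟨hrM, hr2⟩
    have hT2 : t i0 + t r ≤ ∑ i, t i := by
      rw [← sum_pair (Ne.symm hri0)]
      exact sum_le_sum_of_subset_of_nonneg (subset_univ _) fun i _ _ => ht0 i
    have hmr := hmax r
    set S0 : ℤ := ∑ i, sc (τ0 i) (n i) with hS0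
    rw [hP0] at hT
    obtain ⟨T2, hT2'⟩ := hTe
    rw [ti0, tr] at hT2
    rcases lt_trichotomy S0 (-2) with hlt | heq | hgt
    · exfalso
      have hS4 : S0 ≤ -4 := by omega
      have e1 : n i0 = n r := by omega
      have e2 : n r % 2 = 1 := by omega
      have e3 : (∑ i, t i) = 2 * (n r : ℤ) - 6 := by omega
      have e4 : H = NM + (n r - 1) := by omega
      have hR1 : ∀ j, 2 ≤ n j → j ≠ i0 → j ∉ M → j = r := by
        intro j hj2 hj0 hjM
        by_contra hjr
        have hj : j ∈ Rej := by simp [hRej, hj2, hj0, hjM]
        have hjn := hrmin j hj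
        have tj : t j = (n j : ℤ) - 2 - ((n j % 2 : ℕ) : ℤ) := by
          simp only [ht]
          rw [if_neg]
          push Not
          exact ⟨hjM, hj2⟩
        have h3 : t i0 + (t r + t j) ≤ ∑ i, t i := by
          rw [← sum_pair (Ne.symm hjr), ← sum_insert (s := {r, j}) (a := i0)
            (by simp [Ne.symm hri0, Ne.symm hj0])]
          exact sum_le_sum_of_subset_of_nonneg (subset_univ _) fun i _ _ => ht0 i
        rw [ti0, tr, tj] at h3
        omega
      have hN : (NM : ℤ) + n i0 + n r + ones n = ∑ i, (n i : ℤ) := by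
        rw [hNM', ones_eq]
        have h1 : (n i0 : ℤ) = ∑ i, if i = i0 then (n i0 : ℤ) else 0 := by
          rw [sum_ite_eq' univ i0, if_pos (mem_univ _)]
        have h2 : (n r : ℤ) = ∑ i, if i = r then (n r : ℤ) else 0 := by
          rw [sum_ite_eq' univ r, if_pos (mem_univ _)]
        rw [h1, h2, ← sum_add_distrib, ← sum_add_distrib, ← sum_add_distrib]
        refine sum_congr rfl fun i _ => ?_
        have hp := hpos i
        by_cases hi : i = i0
        · subst hi
          rw [if_neg hi0M, if_pos rfl, if_neg (Ne.symm hri0), if_neg (by omega)]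
          ring
        · by_cases hir : i = r
          · subst hir
            rw [if_neg hrM, if_neg hi, if_pos rfl, if_neg (by omega)]
            ring
          · by_cases hi2 : 2 ≤ n i
            · have : i ∈ M := by
                by_contra hiM
                exact hir (hR1 i hi2 hi hiM)
              rw [if_pos this, if_neg hi, if_neg hir, if_neg (by omega)]
              ring
            · have : i ∉ M := fun h => hi2 (hMbig i h).1
              rw [if_neg this, if_neg hi, if_neg hir, if_pos (by omega)]
              omega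
      rw [← hNN] at hN
      have hMa : NM + ones n = 2 := by omega
      rcases M.eq_empty_or_nonempty with hMe | ⟨m, hm⟩
      · have hNM0 : NM = 0 := by rw [hNM, hMe, sum_empty]
        have hbig : ({i | ¬ n i = 1} : Finset ι) = {i0, r} := by
          ext i
          simp only [mem_filter, mem_univ, true_and, mem_insert, mem_singleton]
          constructor
          · intro hi
            have hp := hpos i
            by_contra hcon
            push Not at hcon
            exact hcon.2 (hR1 i (by omega) hcon.1 (by rw [hMe]; simp))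
          · rintro (rfl | rfl) <;> omega
        apply hc.e3
        refine ⟨?_, by omega, ?_⟩
        · have := card_filter_add_card_filter_not (s := (univ : Finset ι)) (p := fun i => n i = 1)
          rw [card_univ, hbig, card_pair (Ne.symm hri0)] at this
          have h3 : #({i | n i = 1} : Finset ι) = ones n := rfl
          omega
        · intro i
          by_cases hi : n i = 1
          · exact Or.inl hi
          · right
            have : i ∈ ({i | ¬ n i = 1} : Finset ι) := by simpa using hi
            rw [hbig, mem_insert, mem_singleton] at this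
            rcases this with rfl | rfl <;> omega
      · have h2m : 2 ≤ NM := by
          rw [hNM]
          exact (hMbig m hm).1.trans (single_le_sum (f := n) (fun i _ => Nat.zero_le _) hm)
        have hcr : ({r} : Finset ι) ∈ cands := by
          rw [hcands, mem_filter, mem_powerset]
          refine ⟨?_, ?_⟩
          · intro x hx
            rw [mem_singleton] at hx
            subst hx
            simp [hB', hr2, hri0]
          · rw [sum_singleton]
            omega
        have := hMmax _ hcr
        simp only [sum_singleton] at this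
        omega
    · -- move the smallest rejected part to J
      have hτr : τ0 r = Ty.I := by
        simp only [hτ0]
        rw [if_neg]
        push Not
        exact ⟨hrM, hr2⟩
      refine ⟨Function.update τ0 r Ty.J, ?_, ?_, ?_⟩
      · intro i hi
        by_cases hir : i = r
        · subst hir; exact hr2
        · rw [Function.update_of_ne hir] at hi
          exact hI2 i hi
      · have e1 : pc Ty.I (n r) = (n r : ℤ) := rfl
        have e2 : pc Ty.J (n r) = -((n r % 2 : ℕ) : ℤ) := rfl
        rw [sum_update_eq, hP0, hτr, e1, e2]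
        omega
      · have e1 : sc Ty.I (n r) = -(2 + ((n r % 2 : ℕ) : ℤ)) := rfl
        have e2 : sc Ty.J (n r) = -((n r % 2 : ℕ) : ℤ) := rfl
        rw [sum_update_eq, hτr, e1, e2, ← hS0]
        omega
    · refine ⟨τ0, hI2, by rw [hP0]; omega, ?_⟩
      omega

end

end Pool.Agent.R547.MJ
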